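import Pool.Agent.H26R3.SlsDefs
import Pool.Agent.H452.SLS.Main

/-!
# Continuum many surfaces with the same simple length spectrum (helper452)

One topological surface carries continuum many pairwise non-isometric complete Nielsen-convex
hyperbolic structures that all have the same simple length spectrum.
-/

set_option autoImplicit false
open UpperHalfPlane

namespace Pool.Agent.Results.MP_052aee_gt.ContinuumIsospectral

open Pool.Agent.H26R3

/-- There is a family of continuum many complete Nielsen-convex hyperbolic surfaces `Γ ω \ ℍ`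
(`ω : ℕ → Bool`) with nonabelian fundamental groups which are all homeomorphic and all have the
same simple length spectrum, while no two of them are isometric. -/
theorem result : ∃ Γ : (ℕ → Bool) → Subgroup (ℍ ≃ᵢ ℍ),
    (∀ ω, IsSurfaceGroup (Γ ω) ∧ (∃ γ ∈ Γ ω, ∃ δ ∈ Γ ω, γ * δ ≠ δ * γ) ∧ NielsenConvex (Γ ω)) ∧
    ∀ ω ω', Nonempty (Surf (Γ ω) ≃ₜ Surf (Γ ω')) ∧ SameSimpleLengthSpectrum (Γ ω) (Γ ω') ∧
      (ω ≠ ω' → ¬ IsometricSurfaces (Γ ω) (Γ ω')) := by
  obtain ⟨e, -, he⟩ := Pool.Agent.H452.SLS.exists_indep (α := ℕ → Bool) (by simp)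
    (fun ω ω' => IsometricSurfaces (VV' ω).Gam (VV' ω').Gam)
    (fun _ _ h => Pool.Agent.H452.SLS.isometric_symm h)
    (fun ω => Pool.Agent.H452.SLS.countable_isometric (VV' ω))
  exact ⟨fun ω => (VV' (e ω)).Gam, fun ω => ⟨Verts.isSurfaceGroup _, Verts.noncomm _,
    Verts.nielsenConvex _⟩, fun ω ω' => ⟨⟨Verts.homeo _ _⟩,
    Verts.sameSpectrum (fun M B => pattern _ (e ω') M B) (fun M B => pattern _ (e ω) M B),
    fun hne => he ω ω' hne⟩⟩

end Pool.Agent.Results.MP_052aee_gt.ContinuumIsospectral
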